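import Pool.Agent.Run7.h228.AH.QTAa

/-!
# Piece AH_QTA: values of quasitraces at `Bt`
-/

set_option autoImplicit false
set_option linter.unusedSectionVars false

noncomputable section

namespace Pool.Agent.Run7.h228.AH

open Run7.h305.CX (mu PP diag_proj qt_rank_one qt_rank_ge qt_corner_one mu_add mu_sum mu_smul)
open Filter Topology Matrix Run7.h745 Run7.h745.AH Pool.Agent.H188R3 Pool.Agent.TH249
open scoped ENNReal NNReal ComplexOrder

variable (s : ℕ → Bool) (n₀ t : ℕ)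

/-- positions of the component `t`, and one point for the other components -/
abbrev Y : Type := (X n₀ t × Fin (N s n₀ t)) ⊕ Unit

/-- diagonal matrices -/
def dg : C(X n₀ t × Fin (N s n₀ t), ℂ) →⋆ₐ[ℂ] C(X n₀ t, MA (Fin (N s n₀ t)) ℂ) where
  toFun g := ⟨fun y => MA.of fun p p' => if p = p' then g (y, p) else 0, by
    have h1 : Continuous fun y : X n₀ t => (show Matrix (Fin (N s n₀ t)) (Fin (N s n₀ t)) ℂ from
        fun p p' => if p = p' then g (y, p) else 0) := by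
      refine continuous_pi fun p => continuous_pi fun p' => ?_
      split_ifs
      · exact g.continuous.comp (continuous_id.prodMk continuous_const)
      · exact continuous_const
    exact h1⟩
  map_one' := by
    ext1 y
    exact MA.ext fun p p' => by
      show (if p = p' then (1 : ℂ) else 0) = (1 : MA (Fin (N s n₀ t)) ℂ).en p p'
      rw [MA.en_one]
  map_mul' f g := by
    ext1 y
    exact MA.ext fun p p' => by
      show (if p = p' then f (y, p) * g (y, p) else 0) = MA.en (MA.of _ * MA.of _) p p'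
      rw [MA.en_mul, Finset.sum_eq_single p]
      · rw [MA.en_of, MA.en_of, if_pos rfl]
        split_ifs <;> simp
      · intro b _ hb
        rw [MA.en_of, if_neg (Ne.symm hb), zero_mul]
      · intro h; exact absurd (Finset.mem_univ _) h
  map_zero' := by
    ext1 y
    exact MA.ext fun p p' => by
      show (if p = p' then (0 : ℂ) else 0) = 0
      split_ifs <;> rfl
  map_add' f g := by
    ext1 y
    exact MA.ext fun p p' => by
      show (if p = p' then f (y, p) + g (y, p) else 0) =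
        (if p = p' then f (y, p) else 0) + (if p = p' then g (y, p) else 0)
      split_ifs <;> simp
  commutes' c := by
    ext1 y
    exact MA.ext fun p p' => by
      show (if p = p' then c else 0) = (algebraMap ℂ (MA (Fin (N s n₀ t)) ℂ) c).en p p'
      rw [MA.en_algebraMap]
      rfl
  map_star' f := by
    ext1 y
    exact MA.ext fun p p' => by
      show (if p = p' then star (f (y, p)) else 0) = star (if p' = p then f (y, p') else 0)
      by_cases h : p = p'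
      · subst h; simp
      · rw [if_neg h, if_neg (Ne.symm h), star_zero]

lemma dg_en (g : C(X n₀ t × Fin (N s n₀ t), ℂ)) (y : X n₀ t) (p p' : Fin (N s n₀ t)) :
    (dg s n₀ t g y).en p p' = if p = p' then g (y, p) else 0 := rfl

/-- restriction to the positions -/
def rl : C(Y s n₀ t, ℂ) →⋆ₐ[ℂ] C(X n₀ t × Fin (N s n₀ t), ℂ) where
  toFun g := g.comp ⟨Sum.inl, continuous_inl⟩
  map_one' := rfl
  map_mul' _ _ := rfl
  map_zero' := rfl
  map_add' _ _ := rfl
  commutes' _ := rfl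
  map_star' _ := rfl


variable {n₀ t}

section delta
variable (t₀ : Fin (n₀ + 1))

/-- the embedding of the diagonal algebra -/
def δ : C(Y s n₀ t₀, ℂ) →⋆ₐ[ℂ] A s n₀ where
  toFun g := Function.update (fun t₁ => algebraMap ℂ
    (C(X n₀ t₁, MA (Fin (N s n₀ t₁)) ℂ)) (g (Sum.inr ()))) t₀ (dg s n₀ t₀ (rl s n₀ t₀ g))
  map_one' := by
    funext t₁
    by_cases h : t₀ = t₁
    · subst h
      rw [Function.update_self]
      exact (congrArg (dg s n₀ t₀) (map_one (rl s n₀ t₀))).trans (map_one (dg s n₀ t₀))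
    · rw [Function.update_of_ne (Ne.symm h)]
      exact map_one _
  map_mul' f g := by
    funext t₁
    by_cases h : t₀ = t₁
    · subst h
      rw [Pi.mul_apply, Function.update_self, Function.update_self, Function.update_self]
      exact (congrArg (dg s n₀ t₀) (map_mul (rl s n₀ t₀) f g)).trans (map_mul (dg s n₀ t₀) _ _)
    · rw [Pi.mul_apply, Function.update_of_ne (Ne.symm h), Function.update_of_ne (Ne.symm h),
        Function.update_of_ne (Ne.symm h)]
      exact map_mul _ _ _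
  map_zero' := by
    funext t₁
    by_cases h : t₀ = t₁
    · subst h
      rw [Function.update_self]
      exact (congrArg (dg s n₀ t₀) (map_zero (rl s n₀ t₀))).trans (map_zero (dg s n₀ t₀))
    · rw [Function.update_of_ne (Ne.symm h)]
      exact map_zero _
  map_add' f g := by
    funext t₁
    by_cases h : t₀ = t₁
    · subst h
      rw [Pi.add_apply, Function.update_self, Function.update_self, Function.update_self]
      exact (congrArg (dg s n₀ t₀) (map_add (rl s n₀ t₀) f g)).trans (map_add (dg s n₀ t₀) _ _)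
    · rw [Pi.add_apply, Function.update_of_ne (Ne.symm h), Function.update_of_ne (Ne.symm h),
        Function.update_of_ne (Ne.symm h)]
      exact map_add _ _ _
  commutes' c := by
    funext t₁
    by_cases h : t₀ = t₁
    · subst h
      rw [Function.update_self]
      exact (congrArg (dg s n₀ t₀) (AlgHomClass.commutes (rl s n₀ t₀) c)).trans
        (AlgHomClass.commutes (dg s n₀ t₀) c)
    · rw [Function.update_of_ne (Ne.symm h)]
      show algebraMap ℂ _ ((algebraMap ℂ C(Y s n₀ t₀, ℂ) c) (Sum.inr ())) = algebraMap ℂ _ c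
      rfl
  map_star' f := by
    funext t₁
    by_cases h : t₀ = t₁
    · subst h
      rw [Pi.star_apply, Function.update_self, Function.update_self]
      exact (congrArg (dg s n₀ t₀) (map_star (rl s n₀ t₀) f)).trans (map_star (dg s n₀ t₀) _)
    · rw [Pi.star_apply, Function.update_of_ne (Ne.symm h), Function.update_of_ne (Ne.symm h)]
      show algebraMap ℂ _ (star (f (Sum.inr ()))) = star (algebraMap ℂ _ (f (Sum.inr ())))
      rw [algebraMap_star_comm]

lemma δ_self (g : C(Y s n₀ t₀, ℂ)) : δ s t₀ g t₀ = dg s n₀ t₀ (rl s n₀ t₀ g) := by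
  show Function.update (fun t₁ : Fin (n₀ + 1) => algebraMap ℂ
    (C(X n₀ t₁, MA (Fin (N s n₀ t₁)) ℂ)) (g (Sum.inr ()))) t₀ (dg s n₀ t₀ (rl s n₀ t₀ g)) t₀ = _
  rw [Function.update_self]

lemma δ_ne (g : C(Y s n₀ t₀, ℂ)) {t₁ : Fin (n₀ + 1)} (h : t₁ ≠ t₀) :
    δ s t₀ g t₁ = algebraMap ℂ (C(X n₀ t₁, MA (Fin (N s n₀ t₁)) ℂ)) (g (Sum.inr ())) := by
  show Function.update (fun t₁ : Fin (n₀ + 1) => algebraMap ℂ
    (C(X n₀ t₁, MA (Fin (N s n₀ t₁)) ℂ)) (g (Sum.inr ()))) t₀ (dg s n₀ t₀ (rl s n₀ t₀ g)) t₁ = _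
  rw [Function.update_of_ne h]

end delta

/-! ### The matrix `Bt` over the diagonal algebra -/

lemma cont_pos {E : Type} [TopologicalSpace E] (F : CZ t → E) (hF : Continuous F) (e : E) :
    Continuous fun x : X n₀ t × Fin (N s n₀ t) =>
      if h : (x.2 : ℕ) < f n₀ then F (x.1 ⟨x.2, h⟩) else e := by
  rw [continuous_prod_of_discrete_right]
  intro p
  by_cases h : (p : ℕ) < f n₀
  · simp only [h, dif_pos]
    exact hF.comp (continuous_apply (⟨(p : ℕ), h⟩ : Fin (f n₀)))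
  · simp only [h, dif_neg, not_false_eq_true]
    exact continuous_const

/-- the square root of `Bt`, over the diagonal algebra -/
def S' (t : ℕ) : Matrix (Nb (mm t)) (Nb (mm t)) C(Y s n₀ t, ℂ) :=
  Matrix.of fun r r' => ⟨Sum.elim
    (fun x => if h : (x.2 : ℕ) < f n₀ then sC (mm t) (x.1 ⟨x.2, h⟩) r r' else 0)
    (fun _ => if r = r' then 1 else 0),
    Continuous.sumElim (cont_pos s (fun z => sC (mm t) z r r') (continuous_sC _ r r') 0)
      continuous_const⟩

lemma S'_inl (r r' : Nb (mm t)) (y : X n₀ t) (p : Fin (N s n₀ t)) (h : (p : ℕ) < f n₀) :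
    (S' (n₀ := n₀) s t r r') (Sum.inl (y, p)) = sC (mm t) (y ⟨p, h⟩) r r' := by
  show (if h : (p : ℕ) < f n₀ then sC (mm t) (y ⟨p, h⟩) r r' else 0) = _
  rw [dif_pos h]

lemma S'_inl' (r r' : Nb (mm t)) (y : X n₀ t) (p : Fin (N s n₀ t)) (h : ¬ (p : ℕ) < f n₀) :
    (S' (n₀ := n₀) s t r r') (Sum.inl (y, p)) = 0 := by
  show (if h : (p : ℕ) < f n₀ then sC (mm t) (y ⟨p, h⟩) r r' else 0) = _
  rw [dif_neg h]

lemma S'_inr (r r' : Nb (mm t)) :
    (S' (n₀ := n₀) s t r r') (Sum.inr ()) = if r = r' then 1 else 0 := rfl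

/-- evaluation of a matrix of functions -/
lemma ev_mul {Z : Type} [TopologicalSpace Z] {I : Type} [Fintype I] (M M' : Matrix I I C(Z, ℂ))
    (z : Z) (a b : I) : ((M * M') a b) z =
      ((Matrix.of fun i j => (M i j) z) * (Matrix.of fun i j => (M' i j) z)) a b := by
  rw [Matrix.mul_apply, ContinuousMap.sum_apply, Matrix.mul_apply]
  rfl

/-- pointwise description of `S'` -/
lemma S'_cases (z : Y s n₀ t) :
    (∃ (y : X n₀ t) (p : Fin (N s n₀ t)) (h : (p : ℕ) < f n₀), z = Sum.inl (y, p) ∧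
      (Matrix.of fun i j => (S' (n₀ := n₀) s t i j) z) = sC (mm t) (y ⟨p, h⟩)) ∨
    (∃ (y : X n₀ t) (p : Fin (N s n₀ t)), ¬ (p : ℕ) < f n₀ ∧ z = Sum.inl (y, p) ∧
      (Matrix.of fun i j => (S' (n₀ := n₀) s t i j) z) = 0) ∨
    (z = Sum.inr () ∧ (Matrix.of fun i j => (S' (n₀ := n₀) s t i j) z) = 1) := by
  rcases z with ⟨y, p⟩ | ⟨⟩
  · by_cases h : (p : ℕ) < f n₀
    · left
      refine ⟨y, p, h, rfl, ?_⟩
      ext a b
      exact S'_inl s a b y p h
    · right; left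
      refine ⟨y, p, h, rfl, ?_⟩
      ext a b
      exact S'_inl' s a b y p h
  · right; right
    refine ⟨rfl, ?_⟩
    ext a b
    exact S'_inr (n₀ := n₀) s a b

lemma S'_herm : (S' (n₀ := n₀) s t)ᴴ = S' s t := by
  ext a b z
  have hz : ((S' (n₀ := n₀) s t)ᴴ a b) z =
      (Matrix.of fun i j => (S' (n₀ := n₀) s t i j) z)ᴴ a b := rfl
  have hz' : ((S' (n₀ := n₀) s t) a b) z =
      (Matrix.of fun i j => (S' (n₀ := n₀) s t i j) z) a b := rfl
  rw [hz, hz']
  rcases S'_cases s z with ⟨y, p, h, -, e⟩ | ⟨y, p, h, -, e⟩ | ⟨-, e⟩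
  · rw [e, sC_herm]
  · rw [e, conjTranspose_zero]
  · rw [e, conjTranspose_one]

lemma S'_key : KeyC (S' (n₀ := n₀) s t) := by
  intro p p' a b
  ext z
  have key : KeyC (Matrix.of fun i j => (S' (n₀ := n₀) s t i j) z) := by
    rcases S'_cases s z with ⟨y, p, h, -, e⟩ | ⟨y, p, h, -, e⟩ | ⟨-, e⟩
    · rw [e]; exact sC_key _ _
    · rw [e]; intro p p' a b; simp
    · rw [e]
      intro p p' a b
      rw [one_mul]
      simp only [Matrix.one_apply]
      by_cases h : p = p'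
      · subst h; rfl
      · simp [h, Ne.symm h]
  have := key p p' a b
  show (S' (n₀ := n₀) s t a p) z *
      ((S' s t * S' s t : Matrix (Nb (mm t)) (Nb (mm t)) C(Y s n₀ t, ℂ)) p p') z *
      (S' s t p' b) z =
    (S' (n₀ := n₀) s t a p') z *
      ((S' s t * S' s t : Matrix (Nb (mm t)) (Nb (mm t)) C(Y s n₀ t, ℂ)) p' p) z * (S' s t p b) z
  rw [ev_mul, ev_mul]
  exact this

/-- `Bt` with the component as an index -/
def Btf (s : ℕ → Bool) (n₀ : ℕ) (t₀ : Fin (n₀ + 1)) :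
    Matrix (Nb (mm t₀)) (Nb (mm t₀)) (A s n₀) :=
  Matrix.of fun r r' => Pi.single t₀ (gC s n₀ t₀ r r') +
    (1 - eC s t₀) * (if r = r' then 1 else 0)

/-- `Bt` comes from the diagonal algebra -/
lemma Btf_eq (t₀ : Fin (n₀ + 1)) : Btf s n₀ t₀ =
    (S' (n₀ := n₀) s t₀ * S' s t₀).map (δ s t₀) := by
  ext r r' : 1
  rw [Matrix.map_apply]
  show Pi.single t₀ (gC s n₀ t₀ r r') + (1 - eC s t₀) * (if r = r' then 1 else 0) = _
  funext t₁
  by_cases h : t₁ = t₀
  · subst h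
    rw [δ_self]
    have e1 : (Pi.single t₁ (gC s n₀ t₁ r r') + (1 - eC s t₁) *
        (if r = r' then 1 else 0) : A s n₀) t₁ = gC s n₀ t₁ r r' := by
      rw [Pi.add_apply, Pi.mul_apply, Pi.sub_apply, Pi.single_eq_same]
      unfold eC
      rw [Pi.single_eq_same, Pi.one_apply, sub_self, zero_mul, add_zero]
    rw [e1]
    ext1 y
    refine MA.ext fun p p' => ?_
    rw [dg_en]
    show (if p = p' then (if h : (p : ℕ) < f n₀ then bC (mm t₁) (y ⟨p, h⟩) r r' else 0) else 0) =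
      if p = p' then ((S' s t₁ * S' s t₁ : Matrix (Nb (mm t₁)) (Nb (mm t₁)) C(Y s n₀ t₁, ℂ)) r r')
        (Sum.inl (y, p)) else 0
    rw [ev_mul]
    by_cases hp : p = p'
    · rw [if_pos hp, if_pos hp]
      by_cases h : (p : ℕ) < f n₀
      · have e2 : (Matrix.of fun i j => (S' (n₀ := n₀) s t₁ i j) (Sum.inl (y, p))) =
            sC (mm t₁) (y ⟨p, h⟩) := by
          ext a b
          exact S'_inl s a b y p h
        rw [dif_pos h, e2, sC_mul]
      · have e2 : (Matrix.of fun i j => (S' (n₀ := n₀) s t₁ i j) (Sum.inl (y, p))) = 0 := by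
          ext a b
          exact S'_inl' s a b y p h
        rw [dif_neg h, e2, Matrix.zero_mul]
        rfl
    · rw [if_neg hp, if_neg hp]
  · rw [δ_ne s t₀ _ h, ev_mul]
    have e2 : (Matrix.of fun i j => (S' (n₀ := n₀) s t₀ i j) (Sum.inr ())) = 1 := by
      ext a b
      exact S'_inr (n₀ := n₀) s a b
    rw [e2, Matrix.one_mul, Pi.add_apply, Pi.mul_apply, Pi.sub_apply, Pi.single_eq_of_ne h]
    unfold eC
    rw [Pi.single_eq_of_ne h, sub_zero, zero_add, Pi.one_apply, one_mul, Matrix.one_apply]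
    by_cases hr : r = r'
    · rw [if_pos hr, if_pos hr, map_one]; rfl
    · rw [if_neg hr, if_neg hr, map_zero]; rfl

/-! ### The trace -/

/-- the function which is `c p` at the positions `(y, p)` and `c'` on the other components -/
def stp (n₀ t : ℕ) (c : Fin (N s n₀ t) → ℂ) (c' : ℂ) : C(Y s n₀ t, ℂ) :=
  ⟨Sum.elim (fun x => c x.2) (fun _ => c'), Continuous.sumElim
    (continuous_of_discreteTopology.comp continuous_snd) continuous_const⟩

lemma S'_trace : (S' (n₀ := n₀) s t * S' s t).trace =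
    stp s n₀ t (fun p => if (p : ℕ) < f n₀ then ((mm t : ℂ) + 1) else 0)
      (Fintype.card (Nb (mm t)) : ℂ) := by
  ext z
  have h0 : (S' (n₀ := n₀) s t * S' s t).trace z =
      ((Matrix.of fun i j => (S' (n₀ := n₀) s t i j) z) *
        (Matrix.of fun i j => (S' (n₀ := n₀) s t i j) z)).trace := by
    rw [Matrix.trace, ContinuousMap.sum_apply, Matrix.trace]
    exact Finset.sum_congr rfl fun q _ => ev_mul _ _ _ _ _
  rw [h0]
  rcases S'_cases s z with ⟨y, p, h, rfl, e⟩ | ⟨y, p, h, rfl, e⟩ | ⟨rfl, e⟩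
  · rw [e, sC_mul, bC_trace]
    show _ = if (p : ℕ) < f n₀ then ((mm t : ℂ) + 1) else 0
    rw [if_pos h]
  · rw [e, Matrix.zero_mul, Matrix.trace_zero]
    show _ = if (p : ℕ) < f n₀ then ((mm t : ℂ) + 1) else 0
    rw [if_neg h]
  · rw [e, Matrix.one_mul, Matrix.trace_one]
    rfl

section
variable (t₀ : Fin (n₀ + 1))

/-- a matrix unit of the component `t` -/
def mun (p p' : Fin (N s n₀ t₀)) : A s n₀ :=
  Pi.single t₀ (ContinuousMap.const _ (MA.of fun a b => if a = p ∧ b = p' then 1 else 0))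

lemma mun_mul (p p' : Fin (N s n₀ t₀)) : star (mun s t₀ p p') * mun s t₀ p p' =
    δ s t₀ (stp s n₀ t₀ (Pi.single p' 1) 0) := by
  funext t₁
  by_cases h : t₀ = t₁
  · subst h
    rw [δ_self, Pi.mul_apply, Pi.star_apply]
    unfold mun
    rw [Pi.single_eq_same]
    ext1 y
    refine MA.ext fun a b => ?_
    rw [dg_en]
    show MA.en (star (MA.of fun a b => if a = p ∧ b = p' then (1 : ℂ) else 0) *
      (MA.of fun a b => if a = p ∧ b = p' then 1 else 0)) a b =
      if a = b then (Pi.single p' (1 : ℂ) : Fin (N s n₀ t₀) → ℂ) a else 0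
    rw [MA.en_mul, Finset.sum_eq_single p]
    · rw [MA.en_star, MA.en_of, MA.en_of, Pi.single_apply]
      by_cases h1 : a = p'
      · subst h1
        by_cases h2 : b = a
        · subst h2; simp
        · simp [h2, Ne.symm h2]
      · simp [h1]
    · intro q _ hq
      rw [MA.en_star, MA.en_of, MA.en_of]
      simp [hq]
    · intro h; exact absurd (Finset.mem_univ _) h
  · rw [δ_ne s t₀ _ (Ne.symm h), Pi.mul_apply]
    unfold mun
    rw [Pi.single_eq_of_ne (Ne.symm h), mul_zero]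
    show 0 = algebraMap ℂ _ (0 : ℂ)
    rw [map_zero]

lemma mun_mul' (p p' : Fin (N s n₀ t₀)) : mun s t₀ p p' * star (mun s t₀ p p') =
    δ s t₀ (stp s n₀ t₀ (Pi.single p 1) 0) := by
  have h : star (mun s t₀ p p') = mun s t₀ p' p := by
    funext t₁
    rw [Pi.star_apply]
    unfold mun
    by_cases h : t₀ = t₁
    · subst h
      rw [Pi.single_eq_same, Pi.single_eq_same]
      ext1 y
      refine MA.ext fun a b => ?_
      show star (if b = p ∧ a = p' then (1 : ℂ) else 0) = if a = p' ∧ b = p then 1 else 0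
      by_cases h : b = p ∧ a = p'
      · rw [if_pos h, if_pos h.symm, star_one]
      · rw [if_neg h, if_neg (fun h' => h h'.symm), star_zero]
    · rw [Pi.single_eq_of_ne (Ne.symm h), Pi.single_eq_of_ne (Ne.symm h), star_zero]
  have h' : mun s t₀ p p' = star (mun s t₀ p' p) := by
    rw [← h, star_star]
  rw [h]
  conv_lhs => rw [h']
  exact mun_mul s t₀ p' p

/-! ### The functional -/

section
variable {L : Type} [CStarAlgebra L] (j : A s n₀ →⋆ₐ[ℂ] L) {M : ℕ}
  {τ : Matrix (Fin M) (Fin M) L → ℂ} (hτ : IsQuasitrace τ) (o : Fin M)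

include hτ

lemma mu_nonneg {X : Type} [TopologicalSpace X] (ι : C(X, ℂ) →⋆ₐ[ℂ] L) (g : C(X, ℂ)) :
    ∃ r : ℝ, 0 ≤ r ∧ mu ι τ o (star g * g) = r := by
  have h := hτ.nonneg (Matrix.single o o (ι g))
  have e : star (Matrix.single o o (ι g)) * Matrix.single o o (ι g) =
      Matrix.single o o (ι (star g * g)) := by
    rw [Matrix.star_eq_conjTranspose, Matrix.conjTranspose_single, Matrix.single_mul_single_same,
      map_mul, map_star]
  rw [e] at h
  exact ⟨_, h.1, Complex.ext rfl h.2⟩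

lemma mu_unit (p p' : Fin (N s n₀ t₀)) :
    mu (j.comp (δ s t₀)) τ o (stp s n₀ t₀ (Pi.single p 1) 0) =
      mu (j.comp (δ s t₀)) τ o (stp s n₀ t₀ (Pi.single p' 1) 0) := by
  have h1 := hτ.comm (Matrix.single o o (j (mun s t₀ p' p)))
  rw [Matrix.star_eq_conjTranspose, Matrix.conjTranspose_single, Matrix.single_mul_single_same,
    Matrix.single_mul_single_same, ← map_star, ← map_mul, ← map_mul, mun_mul, mun_mul'] at h1
  exact h1

/-- the value on a step function -/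
lemma mu_stp (p₀ : Fin (N s n₀ t₀)) (c : Fin (N s n₀ t₀) → ℂ) (c' : ℂ) :
    mu (j.comp (δ s t₀)) τ o (stp s n₀ t₀ c c') =
      (∑ p, c p) * mu (j.comp (δ s t₀)) τ o (stp s n₀ t₀ (Pi.single p₀ 1) 0) +
        c' * mu (j.comp (δ s t₀)) τ o (stp s n₀ t₀ 0 1) := by
  have e : stp s n₀ t₀ c c' = (∑ p, c p • stp s n₀ t₀ (Pi.single p 1) 0) + c' • stp s n₀ t₀ 0 1 := by
    ext z
    rcases z with ⟨y, q⟩ | ⟨⟩
    · rw [ContinuousMap.add_apply, ContinuousMap.sum_apply]
      show c q = (∑ p, c p * (Pi.single p (1 : ℂ) : Fin (N s n₀ t₀) → ℂ) q) + c' * 0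
      rw [Finset.sum_eq_single q]
      · rw [Pi.single_eq_same]; ring
      · intro b _ hb
        rw [Pi.single_eq_of_ne (Ne.symm hb), mul_zero]
      · intro h; exact absurd (Finset.mem_univ _) h
    · rw [ContinuousMap.add_apply, ContinuousMap.sum_apply]
      show c' = (∑ p, c p * (0 : ℂ)) + c' * 1
      simp
  rw [e, mu_add _ hτ, mu_sum _ hτ, mu_smul _ hτ, Finset.sum_mul]
  congr 1
  refine Finset.sum_congr rfl fun p _ => ?_
  rw [mu_smul _ hτ, mu_unit s t₀ j hτ o p p₀]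

end

end

/-- piece AH_QTA with the component as an index -/
theorem QTA_aux (hNUM : S_NUM) (s : ℕ → Bool) (L : Type) [CStarAlgebra L]
    (n₀ : ℕ) (j : A s n₀ →⋆ₐ[ℂ] L) (t₀ : Fin (n₀ + 1))
    (hS : ∃ S : Matrix (Nb (mm t₀)) (Nb (mm t₀)) (A s n₀), Btf s n₀ t₀ = Sᴴ * S)
    (hZ : ∃ Z : Matrix (Nb (mm t₀)) (Nb (mm t₀)) (A s n₀), 1 - Btf s n₀ t₀ = Zᴴ * Z) :
    ∃ (k : ℕ) (b a : Matrix (Fin (k + 1)) (Fin (k + 1)) L) (e : Fin (k + 1) ≃ Nb (mm t₀)),
      b = ((Btf s n₀ t₀).map j).submatrix e e ∧ IsPos b ∧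
      a = Matrix.diagonal (fun i => if i = 0 then 1 else 0) ∧ IsPos a ∧
      ∀ τ : QT L, τ.rank a ≤ 1 ∧
        ENNReal.ofReal (3 / 4 * ((mm t₀ : ℝ) + 1) / amp s t₀) ≤ τ.rank b := by
  obtain ⟨k, hk⟩ : ∃ k, Fintype.card (Nb (mm t₀)) = k + 1 :=
    ⟨Fintype.card (Nb (mm t₀)) - 1, by
      have : 0 < Fintype.card (Nb (mm t₀)) := Fintype.card_pos_iff.mpr ⟨Sum.inr 0⟩
      omega⟩
  obtain ⟨e⟩ : Nonempty (Fin (k + 1) ≃ Nb (mm t₀)) := ⟨(Fintype.equivFinOfCardEq hk).symm⟩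
  set ι : C(Y s n₀ t₀, ℂ) →⋆ₐ[ℂ] L := j.comp (δ s t₀) with hι
  obtain ⟨S₁, hS₁⟩ := hS
  obtain ⟨Z₁, hZ₁⟩ := hZ
  -- the matrix
  have hb : ((Btf s n₀ t₀).map j).submatrix e e =
      PP ι e (S' (n₀ := n₀) s t₀ * S' s t₀) := by
    rw [Btf_eq]
    rfl
  have hpos : ((Btf s n₀ t₀).map j).submatrix e e =
      ((S₁.map j).submatrix e e)ᴴ * (S₁.map j).submatrix e e := by
    rw [hS₁, Matrix.conjTranspose_submatrix, Matrix.submatrix_mul_equiv, Matrix.map_mul]
    congr 2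
    ext a b
    show j (star (S₁ b a)) = star (j (S₁ b a))
    rw [map_star]
  have hpos' : 1 - ((Btf s n₀ t₀).map j).submatrix e e =
      ((Z₁.map j).submatrix e e)ᴴ * (Z₁.map j).submatrix e e := by
    have e1 : 1 - ((Btf s n₀ t₀).map j).submatrix e e =
        ((1 - Btf s n₀ t₀).map j).submatrix e e := by
      rw [Matrix.map_sub _ (fun a b => map_sub j a b), Matrix.map_one _ (map_zero j)
        (map_one j)]
      ext a b : 1
      show _ = (1 : Matrix _ _ L) (e a) (e b) - _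
      rw [Matrix.sub_apply, Matrix.one_apply, Matrix.one_apply]
      simp only [EmbeddingLike.apply_eq_iff_eq]
      rfl
    rw [e1, hZ₁, Matrix.conjTranspose_submatrix, Matrix.submatrix_mul_equiv, Matrix.map_mul]
    congr 2
    ext a b
    show j (star (Z₁ b a)) = star (j (Z₁ b a))
    rw [map_star]
  refine ⟨k, _, _, e, rfl, ⟨_, hpos⟩, rfl, ⟨_, diag_proj k⟩, fun τ =>
    ⟨qt_rank_one τ k, qt_rank_ge τ _ _ _ hpos hpos' _ ?_⟩⟩
  have hτ := τ.isQuasitrace (k + 1)
  have h1 : mu ι (τ.val (k + 1)) 0 (1 : C(Y s n₀ t₀, ℂ)) = 1 := by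
    rw [← qt_corner_one τ k]
    unfold mu
    congr 1
    rw [map_one]
    ext i j
    rw [Matrix.single_apply, Matrix.diagonal_apply]
    by_cases hij : i = j
    · subst hij
      rw [if_pos rfl]
      by_cases hi : i = 0
      · subst hi; simp
      · rw [if_neg hi, if_neg (fun h => hi h.1.symm)]
    · rw [if_neg hij, if_neg (fun h => hij (h.1.symm.trans h.2))]
  rw [hb, tau_gen ι hτ 0 e _ (S'_herm s) (S'_key s), S'_trace]
  set p₀ : Fin (N s n₀ t₀) := ⟨0, N_pos s n₀ t₀⟩ with hp₀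
  rw [mu_stp s t₀ j hτ 0 p₀]
  have h2 : (1 : C(Y s n₀ t₀, ℂ)) = stp s n₀ t₀ (fun _ => 1) 1 := by
    ext z
    rcases z with ⟨y, q⟩ | ⟨⟩ <;> rfl
  rw [h2, mu_stp s t₀ j hτ 0 p₀, ← hι] at h1
  rw [← hι]
  obtain ⟨c, hc0, hc⟩ := mu_nonneg hτ 0 ι (stp s n₀ t₀ (Pi.single p₀ 1) 0)
  obtain ⟨c', hc0', hc'⟩ := mu_nonneg hτ 0 ι (stp s n₀ t₀ 0 1)
  have hsq : star (stp s n₀ t₀ (Pi.single p₀ 1) 0) * stp s n₀ t₀ (Pi.single p₀ 1) 0 =
      stp s n₀ t₀ (Pi.single p₀ 1) 0 := by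
    ext z
    rcases z with ⟨y, q⟩ | ⟨⟩
    · show star ((Pi.single p₀ (1 : ℂ) : Fin (N s n₀ t₀) → ℂ) q) *
        (Pi.single p₀ (1 : ℂ) : Fin (N s n₀ t₀) → ℂ) q = (Pi.single p₀ (1 : ℂ) : _ → ℂ) q
      rw [Pi.single_apply]
      split_ifs <;> simp
    · show star (0 : ℂ) * 0 = 0
      simp
  have hsq' : star (stp s n₀ t₀ 0 1) * stp s n₀ t₀ 0 1 = stp s n₀ t₀ 0 1 := by
    ext z
    rcases z with ⟨y, q⟩ | ⟨⟩
    · show star (0 : ℂ) * 0 = 0
      simp
    · show star (1 : ℂ) * 1 = 1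
      simp
  rw [hsq] at hc
  rw [hsq'] at hc'
  rw [hc, hc'] at h1 ⊢
  have h3 : (N s n₀ t₀ : ℝ) * c + c' = 1 := by
    have : ((N s n₀ t₀ : ℂ)) * (c : ℂ) + c' = 1 := by
      rw [← h1]; simp
    exact_mod_cast this
  have hk0 : (0 : ℝ) < Run7.h745.AH.k n₀ := by exact_mod_cast k_pos n₀
  have hd1 : (3 / 4 : ℝ) * Run7.h745.AH.k n₀ ≤ f n₀ := by
    have h5 := (hNUM.1 n₀).1
    unfold d at h5
    rwa [le_div_iff₀ hk0] at h5
  have hd2 : (f n₀ : ℝ) ≤ Run7.h745.AH.k n₀ := by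
    have h5 := (hNUM.1 n₀).2
    unfold d at h5
    rwa [div_le_one hk0] at h5
  have hamp : 1 ≤ amp s t₀ := amp_pos s t₀
  have hfN : f n₀ ≤ N s n₀ t₀ := by
    have h5 : f n₀ ≤ Run7.h745.AH.k n₀ := by exact_mod_cast hd2
    exact h5.trans (Nat.le_mul_of_pos_left _ (amp_pos s t₀))
  have hsum : (∑ p : Fin (N s n₀ t₀), if (p : ℕ) < f n₀ then ((mm t₀ : ℂ) + 1) else 0) =
      (f n₀ : ℂ) * ((mm t₀ : ℂ) + 1) := by
    rw [← Finset.sum_filter, Finset.sum_const, nsmul_eq_mul]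
    congr 2
    have : (Finset.univ.filter fun p : Fin (N s n₀ t₀) => (p : ℕ) < f n₀) =
        (Finset.univ : Finset (Fin (f n₀))).map (Fin.castLEEmb hfN) := by
      ext p
      simp only [Finset.mem_filter, Finset.mem_univ, true_and, Finset.mem_map]
      constructor
      · intro h
        exact ⟨⟨p, h⟩, Fin.ext rfl⟩
      · rintro ⟨a, ha⟩
        rw [← ha]
        exact a.2
    rw [this, Finset.card_map, Finset.card_univ, Fintype.card_fin]
  rw [hsum]
  have hre : ((f n₀ : ℂ) * ((mm t₀ : ℂ) + 1) * (c : ℂ) + (Fintype.card (Nb (mm t₀)) : ℂ) * (c' : ℂ)).re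
      = (f n₀ : ℝ) * ((mm t₀ : ℝ) + 1) * c + (Fintype.card (Nb (mm t₀)) : ℝ) * c' := by
    have : ((f n₀ : ℂ) * ((mm t₀ : ℂ) + 1) * (c : ℂ) + (Fintype.card (Nb (mm t₀)) : ℂ) * (c' : ℂ)) =
        (((f n₀ : ℝ) * ((mm t₀ : ℝ) + 1) * c + (Fintype.card (Nb (mm t₀)) : ℝ) * c' : ℝ) : ℂ) := by
      push_cast; ring
    rw [this, Complex.ofReal_re]
  rw [hre]
  have hcard : (mm t₀ : ℝ) + 1 ≤ Fintype.card (Nb (mm t₀)) := by
    have : mm t₀ + 1 ≤ Fintype.card (Nb (mm t₀)) := by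
      rw [Fintype.card_sum, Fintype.card_fin]
      omega
    exact_mod_cast this
  have hN : (N s n₀ t₀ : ℝ) = amp s t₀ * Run7.h745.AH.k n₀ := by
    unfold N; push_cast; ring
  have hampR : (1 : ℝ) ≤ amp s t₀ := by exact_mod_cast hamp
  have hm0 : (0 : ℝ) ≤ (mm t₀ : ℝ) + 1 := by positivity
  rw [div_le_iff₀ (by linarith)]
  have e1 : (3 / 4 : ℝ) * ((mm t₀ : ℝ) + 1) = 3 / 4 * ((mm t₀ : ℝ) + 1) *
      ((N s n₀ t₀ : ℝ) * c + c') := by rw [h3, mul_one]
  rw [e1, hN]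
  have e2 : (3 / 4 : ℝ) * ((mm t₀ : ℝ) + 1) * (amp s t₀ * Run7.h745.AH.k n₀ * c) ≤
      f n₀ * ((mm t₀ : ℝ) + 1) * c * amp s t₀ := by
    have : 0 ≤ ((mm t₀ : ℝ) + 1) * c * amp s t₀ := by positivity
    nlinarith
  have e3 : (3 / 4 : ℝ) * ((mm t₀ : ℝ) + 1) * c' ≤
      (Fintype.card (Nb (mm t₀)) : ℝ) * c' * amp s t₀ := by
    have h6 : ((mm t₀ : ℝ) + 1) * c' ≤ (Fintype.card (Nb (mm t₀)) : ℝ) * c' :=
      mul_le_mul_of_nonneg_right hcard hc0'
    have h7 : 0 ≤ (Fintype.card (Nb (mm t₀)) : ℝ) * c' := by positivity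
    have h8 : (Fintype.card (Nb (mm t₀)) : ℝ) * c' ≤
        (Fintype.card (Nb (mm t₀)) : ℝ) * c' * amp s t₀ := le_mul_of_one_le_right h7 hampR
    have h9 : 0 ≤ ((mm t₀ : ℝ) + 1) * c' := by positivity
    nlinarith
  nlinarith

/-- **piece AH_QTA** -/
theorem t_QTA : S_QTA := by
  intro hNUM hBT s L _ j hj t n₀ ht
  obtain ⟨hS, hZ, -⟩ := hBT hNUM s n₀ t ht
  exact QTA_aux hNUM s L n₀ (j n₀) (ft ht) hS hZ

end Pool.Agent.Run7.h228.AH
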