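import Pool.Agent.Run7.h745.AH.Iface
import Pool.Agent.Run7.h305.CX.QTR

/-!
# Piece AH_QTA, part 1: the square root of `bC`, quasitraces of squares of commuting type
-/

set_option autoImplicit false
set_option linter.unusedSectionVars false

noncomputable section

namespace Pool.Agent.Run7.h228.AH

open Filter Topology Matrix Run7.h745 Run7.h745.AH Pool.Agent.H188R3 Pool.Agent.TH249
open scoped ENNReal NNReal ComplexOrder

/-! ### The square root of `bC` -/

section sC
variable (m : ℕ)

/-- the trace of a letter -/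
def trc (z : coneSet (m + 1)) : ℝ := ∑ a, z.1 a a

lemma zC_trace (z : coneSet (m + 1)) : (zC m z).trace = ((trc m z : ℝ) : ℂ) := by
  unfold trc zC
  rw [Matrix.trace]
  push_cast
  rfl

lemma ex_zeta (z : coneSet (m + 1)) : ∃ ζ : Fin (2 * (m + 1) + 1) → ℝ, ∑ i, ζ i ^ 2 ≤ 1 ∧
    ∀ i j, z.1 i j = ζ i * ζ j := z.2

lemma trc_mem (z : coneSet (m + 1)) : 0 ≤ trc m z ∧ trc m z ≤ 1 := by
  obtain ⟨ζ, h1, h2⟩ := ex_zeta m z
  have h3 : trc m z = ∑ i, ζ i ^ 2 := by
    unfold trc
    exact Finset.sum_congr rfl fun i _ => by rw [h2]; ring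
  rw [h3]
  exact ⟨Finset.sum_nonneg fun i _ => by positivity, h1⟩

/-- the square root of `bC` -/
def sC (z : coneSet (m + 1)) : Matrix (Nb m) (Nb m) ℂ :=
  Matrix.fromBlocks (Matrix.blockDiagonal fun _ => zC m z) 0 0
    (Matrix.diagonal fun _ => ((Real.sqrt (1 - trc m z ^ 2) : ℝ) : ℂ))

lemma zC_herm (z : coneSet (m + 1)) : (zC m z)ᴴ = zC m z := by
  ext a b
  rw [conjTranspose_apply]
  obtain ⟨ζ, h1, h2⟩ := ex_zeta m z
  show (starRingEnd ℂ) ((z.1 b a : ℝ) : ℂ) = ((z.1 a b : ℝ) : ℂ)
  rw [Complex.conj_ofReal, h2, h2, mul_comm]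

lemma sC_herm (z : coneSet (m + 1)) : (sC m z)ᴴ = sC m z := by
  unfold sC
  rw [fromBlocks_conjTranspose, blockDiagonal_conjTranspose,
    diagonal_conjTranspose, conjTranspose_zero, conjTranspose_zero]
  simp only [zC_herm]
  congr 2
  funext i
  rw [Pi.star_apply]
  exact Complex.conj_ofReal _

lemma sC_mul (z : coneSet (m + 1)) : sC m z * sC m z = bC m z := by
  have h := trc_mem m z
  have h1 : ((Real.sqrt (1 - trc m z ^ 2) : ℝ) : ℂ) * ((Real.sqrt (1 - trc m z ^ 2) : ℝ) : ℂ) =
      1 - (zC m z).trace ^ 2 := by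
    rw [zC_trace, ← Complex.ofReal_mul, Real.mul_self_sqrt (by nlinarith)]
    push_cast
    ring
  unfold sC bC
  rw [fromBlocks_multiply, diagonal_mul_diagonal, ← blockDiagonal_mul]
  simp only [h1, Matrix.zero_mul, Matrix.mul_zero, add_zero, zero_add]

lemma sC_entry (z : coneSet (m + 1)) :
    ∃ (η : Nb m → ℂ) (c : Fin (m + 1) ⊕ Fin (m + 1) → ℂ), ∀ a p,
      sC m z a p = if Run7.h305.CX.blk m a = Run7.h305.CX.blk m p then
        c (Run7.h305.CX.blk m p) * η a * η p else 0 := by
  obtain ⟨ζ, h1, h2⟩ := ex_zeta m z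
  refine ⟨Sum.elim (fun p => ((ζ p.1 : ℝ) : ℂ)) (fun _ => 1),
    Sum.elim (fun _ => 1) (fun _ => ((Real.sqrt (1 - trc m z ^ 2) : ℝ) : ℂ)), ?_⟩
  rintro (⟨a, q⟩ | q) (⟨b, q'⟩ | q')
  · have : sC m z (Sum.inl (a, q)) (Sum.inl (b, q'))
      = blockDiagonal (fun _ : Fin (m + 1) => zC m z) (a, q) (b, q') := rfl
    rw [this, blockDiagonal_apply]
    by_cases h : q = q'
    · subst h
      simp only [Run7.h305.CX.blk, if_true, Sum.elim_inl]
      rw [show zC m z a b = ((z.1 a b : ℝ) : ℂ) from rfl, h2]
      push_cast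
      ring
    · rw [if_neg h, if_neg (by simpa [Run7.h305.CX.blk] using h)]
  · have : sC m z (Sum.inl (a, q)) (Sum.inr q') = 0 := rfl
    rw [this, if_neg (by simp [Run7.h305.CX.blk])]
  · have : sC m z (Sum.inr q) (Sum.inl (b, q')) = 0 := rfl
    rw [this, if_neg (by simp [Run7.h305.CX.blk])]
  · have : sC m z (Sum.inr q) (Sum.inr q')
      = diagonal (fun _ : Fin (m + 1) => ((Real.sqrt (1 - trc m z ^ 2) : ℝ) : ℂ)) q q' := rfl
    rw [this]
    by_cases h : q = q'
    · subst h
      rw [diagonal_apply_eq]
      simp [Run7.h305.CX.blk]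
    · rw [diagonal_apply_ne _ h]
      simp [Run7.h305.CX.blk, h]

/-- the commutation property -/
def KeyC {I : Type} [Fintype I] {R : Type} [CommRing R] (S : Matrix I I R) : Prop :=
  ∀ p p' a b, S a p * (S * S) p p' * S p' b = S a p' * (S * S) p' p * S p b

lemma sC_key (z : coneSet (m + 1)) : KeyC (sC m z) := by
  intro p p' a b
  obtain ⟨η, c, h⟩ := sC_entry m z
  have hb : ∀ p p', (sC m z * sC m z) p p' = ∑ r, sC m z p r * sC m z r p' := by
    intro p p'
    rw [Matrix.mul_apply]
  rw [hb, hb]
  by_cases hp : Run7.h305.CX.blk m p = Run7.h305.CX.blk m p'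
  · have h1 : ∑ r, sC m z p r * sC m z r p' = ∑ r, sC m z p' r * sC m z r p := by
      refine Finset.sum_congr rfl fun r _ => ?_
      rw [h, h, h, h, hp]
      by_cases hr : Run7.h305.CX.blk m r = Run7.h305.CX.blk m p'
      · rw [hr]; simp only [if_true]; ring
      · rw [if_neg (fun h => hr h.symm), if_neg hr, if_neg hr, if_neg (fun h => hr h.symm)]
    rw [h1, h, h, h, h, hp]
    by_cases ha : Run7.h305.CX.blk m a = Run7.h305.CX.blk m p'
    · rw [if_pos ha, if_pos ha]
      by_cases hb' : Run7.h305.CX.blk m p' = Run7.h305.CX.blk m b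
      · rw [if_pos hb', if_pos hb']; ring
      · rw [if_neg hb', if_neg hb']; ring
    · rw [if_neg ha, if_neg ha]; ring
  · have h1 : ∀ p p', Run7.h305.CX.blk m p ≠ Run7.h305.CX.blk m p' →
        ∑ r, sC m z p r * sC m z r p' = 0 := by
      intro p p' hp
      refine Finset.sum_eq_zero fun r _ => ?_
      rw [h, h]
      by_cases hr : Run7.h305.CX.blk m p = Run7.h305.CX.blk m r
      · rw [if_neg (fun h => hp (hr.trans h)), mul_zero]
      · rw [if_neg hr, zero_mul]
    rw [h1 p p' hp, h1 p' p (fun h => hp h.symm)]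
    ring

lemma bC_trace (z : coneSet (m + 1)) : (bC m z).trace = (m : ℂ) + 1 := by
  have h00 : (bC m z).trace
      = (Matrix.blockDiagonal fun _ : Fin (m + 1) => zC m z * zC m z).trace
        + (Matrix.diagonal fun _ : Fin (m + 1) => 1 - (zC m z).trace ^ 2).trace := by
    rw [bC, Matrix.trace, Fintype.sum_sum_type]; rfl
  rw [h00, Matrix.trace_blockDiagonal]
  have h3 : (zC m z * zC m z).trace = (zC m z).trace ^ 2 := by
    obtain ⟨ζ, h1, h2⟩ := ex_zeta m z
    rw [zC_trace, Matrix.trace]
    simp only [diag_apply, Matrix.mul_apply]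
    have h5 : ∀ a, (∑ j, zC m z a j * zC m z j a)
        = ((∑ j, (ζ a * ζ j) * (ζ j * ζ a) : ℝ) : ℂ) := by
      intro a
      push_cast
      refine Finset.sum_congr rfl fun j _ => ?_
      show ((z.1 a j : ℝ) : ℂ) * ((z.1 j a : ℝ) : ℂ) = _
      rw [h2, h2]; push_cast; ring
    simp only [h5]
    rw [← Complex.ofReal_sum, ← Complex.ofReal_pow]
    congr 1
    have h6 : trc m z = ∑ i, ζ i * ζ i := by
      unfold trc
      exact Finset.sum_congr rfl fun i _ => by rw [h2]
    rw [h6, pow_two, Finset.sum_mul_sum]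
    refine Finset.sum_congr rfl fun i _ => Finset.sum_congr rfl fun j _ => by ring
  rw [h3]
  simp only [Matrix.trace_diagonal, Finset.sum_const, Finset.card_univ, Fintype.card_fin]
  rw [← nsmul_add]
  have : (zC m z).trace ^ 2 + (1 - (zC m z).trace ^ 2) = 1 := by ring
  rw [this]
  simp

lemma continuous_sC (r r' : Nb m) : Continuous fun z : coneSet (m + 1) => sC m z r r' := by
  have h0 : ∀ a b, Continuous fun z : coneSet (m + 1) => zC m z a b := fun a b =>
    Complex.continuous_ofReal.comp ((continuous_apply b).comp ((continuous_apply a).comp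
      continuous_subtype_val))
  have h1 : Continuous fun z : coneSet (m + 1) => trc m z := by
    refine continuous_finsetSum _ fun a _ => ?_
    exact (continuous_apply a).comp ((continuous_apply a).comp continuous_subtype_val)
  rcases r with ⟨a, p⟩ | p <;> rcases r' with ⟨b, p'⟩ | p'
  · simp only [sC, Matrix.fromBlocks_apply₁₁, Matrix.blockDiagonal_apply]
    split_ifs
    · exact h0 a b
    · exact continuous_const
  · exact continuous_const
  · exact continuous_const
  · simp only [sC, Matrix.fromBlocks_apply₂₂, Matrix.diagonal_apply]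
    split_ifs
    · exact Complex.continuous_ofReal.comp ((continuous_const.sub (h1.pow 2)).sqrt)
    · exact continuous_const

end sC

/-! ### Quasitraces -/

section tau
variable {X : Type} [TopologicalSpace X] {A : Type} [CStarAlgebra A] (ι : C(X, ℂ) →⋆ₐ[ℂ] A)
  {N : ℕ} {τ : Matrix (Fin N) (Fin N) A → ℂ} {I : Type} [Fintype I] [DecidableEq I]

open Run7.h305.CX in
/-- the value of a quasitrace on a square of commuting type -/
lemma tau_gen (h : IsQuasitrace τ) (p : Fin N) (e : Fin N ≃ I) (S : Matrix I I C(X, ℂ))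
    (hS : Sᴴ = S) (hk : KeyC S) :
    τ (PP ι e (S * S)) = mu ι τ p (S * S).trace := by
  set y : I → Matrix I I C(X, ℂ) := fun q => S * Matrix.single q q 1 * S with hy
  have ysum : ∑ q, y q = S * S := by
    have : ∑ p : I, Matrix.single p p (1 : C(X, ℂ)) = (1 : Matrix I I C(X, ℂ)) := by
      ext a b : 1
      rw [Matrix.sum_apply, Matrix.one_apply]
      by_cases h : a = b
      · subst h
        rw [if_pos rfl, Finset.sum_eq_single a]
        · rw [Matrix.single_apply_same]
        · intro c _ hc
          rw [Matrix.single_apply_of_ne]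
          tauto
        · simp
      · rw [if_neg h]
        refine Finset.sum_eq_zero fun c _ => ?_
        rw [Matrix.single_apply_of_ne]
        rintro ⟨h1, h2⟩
        exact h (h1.symm.trans h2)
    rw [hy]
    simp only
    rw [← Matrix.sum_mul, ← Matrix.mul_sum, this, Matrix.mul_one]
  have yherm : ∀ q, (y q)ᴴ = y q := by
    intro q
    simp only [hy]
    rw [conjTranspose_mul, conjTranspose_mul, hS, conjTranspose_single, star_one,
      Matrix.mul_assoc]
  have ycomm : ∀ q q', Commute (y q) (y q') := by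
    have h : ∀ p p' : I, ∀ a b, (y p * y p') a b = S a p * ((S * S) p p') * S p' b := by
      intro p p' a b
      have e1 : y p * y p' = S * (Matrix.single p p 1 * (S * S) * Matrix.single p' p' 1) * S := by
        simp only [hy]
        simp only [Matrix.mul_assoc]
      rw [e1]
      have e2 : Matrix.single p p (1 : C(X, ℂ)) * (S * S) * Matrix.single p' p' 1
          = Matrix.single p p' ((S * S) p p') := by
        rw [Matrix.single_mul_mul_single]; simp
      rw [e2, Matrix.mul_apply, Finset.sum_eq_single p']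
      · rw [Matrix.mul_single_apply_same]
      · intro c _ hc
        rw [Matrix.mul_single_apply_of_ne _ _ _ _ _ hc, zero_mul]
      · simp
    intro q q'
    show y q * y q' = y q' * y q
    ext a b : 1
    rw [h, h, hk]
  have e0 : PP ι e (S * S) = ∑ q : I, PP ι e (y q) := by
    rw [← ysum, map_sum]
  rw [e0, qt_sum h Finset.univ (fun q => PP ι e (y q)) ?_ ?_]
  · have h2 : ∀ q : I, τ (PP ι e (y q)) = mu ι τ p ((S * S) q q) := by
      intro q
      have e1 : y q = (S * Matrix.single q q 1) * star (S * Matrix.single q q 1) := by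
        rw [Matrix.star_eq_conjTranspose, conjTranspose_mul, conjTranspose_single, star_one,
          hS]
        have e5 : (Matrix.single q q (1 : C(X, ℂ)) : Matrix I I C(X, ℂ)) *
            Matrix.single q q 1 = Matrix.single q q 1 := by
          rw [Matrix.single_mul_single_same, one_mul]
        calc S * Matrix.single q q (1 : C(X, ℂ)) * S
            = S * (Matrix.single q q (1 : C(X, ℂ)) * Matrix.single q q 1) * S := by rw [e5]
          _ = _ := by simp only [Matrix.mul_assoc]
      have e2 : star (S * Matrix.single q q 1) * (S * Matrix.single q q 1)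
          = Matrix.single q q ((S * S) q q) := by
        rw [Matrix.star_eq_conjTranspose, conjTranspose_mul, conjTranspose_single, star_one,
          hS]
        calc Matrix.single q q (1 : C(X, ℂ)) * S * (S * Matrix.single q q 1)
            = Matrix.single q q 1 * (S * S) * Matrix.single q q 1 := by
              simp only [Matrix.mul_assoc]
          _ = _ := by rw [Matrix.single_mul_mul_single]; simp
      have e3 := h.comm (PP ι e (S * Matrix.single q q 1))
      rw [← map_star, ← map_mul, ← map_mul, ← e1, e2, PP_single] at e3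
      rw [← e3]
      obtain ⟨g, hg⟩ := exists_sq ((S * S) q q) (by
        intro x
        refine ⟨∑ r, ‖(S r q) x‖ ^ 2, Finset.sum_nonneg fun r _ => by positivity, ?_⟩
        rw [Matrix.mul_apply, ContinuousMap.sum_apply, Complex.ofReal_sum]
        refine Finset.sum_congr rfl fun r _ => ?_
        have h3 : S q r = star (S r q) := by
          have := congrFun (congrFun hS q) r
          rw [← this, conjTranspose_apply]
        rw [h3]
        show (starRingEnd ℂ) ((S r q) x) * (S r q) x = _
        rw [← Complex.normSq_eq_conj_mul_self, Complex.normSq_eq_norm_sq])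
      rw [hg]
      exact mu_move ι h _ p g
    simp only [h2]
    rw [← mu_sum ι h p Finset.univ (fun q => (S * S) q q)]
    rfl
  · intro q
    show star _ = _
    rw [← map_star, Matrix.star_eq_conjTranspose, yherm]
  · intro q q'
    exact (ycomm q q').map (PP ι e)

end tau

end Pool.Agent.Run7.h228.AH
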